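import Pool.Agent.H30.SY.Stm

/-!
# EVEN: the time constant is even (helper22)
-/

set_option autoImplicit false

open MeasureTheory ProbabilityTheory Finset Filter
open scoped Topology Pointwise

namespace Pool.Agent.H22.SY

open Q70.Fp Pool.Agent.H30.SY

theorem mz_neg (hREV : S_REV) {μ : ℝ × ℝ → ℝ} (h : Shape μ) (z : ℤ × ℤ) : mz μ (-z) = mz μ z := by
  by_contra hne
  obtain ⟨ε, hε⟩ : ∃ ε : ℝ, ε = |mz μ (-z) - mz μ z| / 2 := ⟨_, rfl⟩
  have hε0 : 0 < ε := by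
    rw [hε]
    have := abs_pos.mpr (sub_ne_zero.mpr hne)
    linarith
  have hA := prob_lim h z hε0
  have hB := prob_lim h (-z) hε0
  have hA' : Tendsto (fun n : ℕ =>
      nu.real {w | ε ≤ |TT (pw w) 0 ((n : ℤ) • (-z)) / (n : ℝ) - mz μ z|}) atTop (𝓝 0) := by
    refine hA.congr fun n => ?_
    have hS : MeasurableSet {t : ℝ | ε ≤ |t / (n : ℝ) - mz μ z|} :=
      measurableSet_le measurable_const (((measurable_id.div_const _).sub_const _).abs)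
    have h1 := nu_TT_sh ((n : ℤ) • (-z)) 0 hS
    rw [show (0 : ℤ × ℤ) - (n : ℤ) • (-z) = (n : ℤ) • z by rw [smul_neg, sub_neg_eq_add, zero_add]] at h1
    have h2 : {w : Ed → ℝ | ε ≤ |TT (pw w) 0 ((n : ℤ) • (-z)) / (n : ℝ) - mz μ z|} =
        {w : Ed → ℝ | TT (pw w) ((n : ℤ) • (-z)) 0 ∈ {t : ℝ | ε ≤ |t / (n : ℝ) - mz μ z|}} := by
      ext w
      simp only [Set.mem_setOf_eq]
      rw [hREV (pw w) 0 ((n : ℤ) • (-z))]
    rw [h2, h1]
    rfl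
  have hlim := hA'.add hB
  rw [add_zero] at hlim
  obtain ⟨n, hn⟩ := (hlim.eventually (gt_mem_nhds one_pos)).exists
  obtain ⟨w, h1, h2, -⟩ := exists_out
    {w | ε ≤ |TT (pw w) 0 ((n : ℤ) • (-z)) / (n : ℝ) - mz μ z|}
    {w | ε ≤ |TT (pw w) 0 ((n : ℤ) • (-z)) / (n : ℝ) - mz μ (-z)|} ∅
    (by rw [measureReal_empty, add_zero]; exact hn)
  simp only [Set.mem_setOf_eq, not_le] at h1 h2
  rw [abs_lt] at h1 h2
  have h3 : |mz μ (-z) - mz μ z| < 2 * ε := by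
    rw [abs_lt]
    constructor
    · linarith [h1.1, h1.2, h2.1, h2.2]
    · linarith [h1.1, h1.2, h2.1, h2.2]
  rw [hε] at h3
  linarith

/-- **EVEN** -/
theorem t_EVEN (hREV : S_REV) : S_EVEN := by
  intro μ h x
  have h0 := fl_lim h x
  have h1 : Tendsto (fun n : ℕ => (-((n:ℝ)⁻¹ * (⌊(n:ℝ) * x.1⌋ : ℝ)), -((n:ℝ)⁻¹ * (⌊(n:ℝ) * x.2⌋ : ℝ))))
      atTop (𝓝 (-x.1, -x.2)) := (floor_lim x.1).neg.prodMk_nhds (floor_lim x.2).neg
  have h2 := (h.cont.tendsto (-x.1, -x.2)).comp h1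
  have h3 : Tendsto (fun n : ℕ => (n:ℝ)⁻¹ * mz μ (fl n x)) atTop (𝓝 (μ (-x.1, -x.2))) := by
    refine h2.congr fun n => ?_
    rw [← mz_neg hREV h]
    simp only [Function.comp, mz, fl]
    rw [← h.hom _ _ (by positivity)]
    congr 1
    ext
    · simp
    · simp
  exact tendsto_nhds_unique h3 h0

end Pool.Agent.H22.SY
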