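import Pool.Agent.H30.SY.Stm3

/-!
# MDC: measurability (helper22)
-/

set_option autoImplicit false

open MeasureTheory ProbabilityTheory Finset Filter
open scoped Topology Pointwise

namespace Pool.Agent.H22.SY

open Q70.Fp Pool.Agent.H30.SY

/-- measurability of a condition on two clusters -/
theorem meas2 (s t r : ℝ) (g : ℤ × ℤ → ℤ × ℤ → ℝ) : MeasurableSet {w : Ed → ℝ |
    ∃ v : ℤ × ℤ, TT (pw w) 0 v ≤ s ∧ ∀ y : ℤ × ℤ, TT (pw w) 0 y ≤ t → r < g v y} := by
  have : {w : Ed → ℝ | ∃ v : ℤ × ℤ, TT (pw w) 0 v ≤ s ∧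
      ∀ y : ℤ × ℤ, TT (pw w) 0 y ≤ t → r < g v y} =
      ⋃ v : ℤ × ℤ, ({w : Ed → ℝ | TT (pw w) 0 v ≤ s} ∩
      ⋂ y : ℤ × ℤ, ({w : Ed → ℝ | t < TT (pw w) 0 y} ∪ {_w : Ed → ℝ | r < g v y})) := by
    ext w
    simp only [Set.mem_ofPred_eq, Set.mem_iUnion, Set.mem_inter_iff, Set.mem_iInter,
      Set.mem_union]
    refine exists_congr fun v => and_congr_right fun _ => forall_congr' fun y => ?_
    constructor
    · intro h
      by_cases h1 : TT (pw w) 0 y ≤ t
      · exact Or.inr (h h1)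
      · exact Or.inl (not_le.1 h1)
    · rintro (h | h) h1
      · exact absurd h1 (not_le.2 h)
      · exact h
  rw [this]
  refine MeasurableSet.iUnion fun v => ?_
  refine (measurableSet_le (measurable_TT 0 v) measurable_const).inter ?_
  refine MeasurableSet.iInter fun y => ?_
  exact (measurableSet_lt measurable_const (measurable_TT 0 y)).union (MeasurableSet.const _)

/-- **MDC** -/
theorem t_MDC : S_MDC := by
  intro t r
  have h1 := meas2 t (2 * t) r (fun v y => (dd 0 (y - (v + v)) : ℝ))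
  have h2 := meas2 (2 * t) t r (fun y v => (dd 0 (y - (v + v)) : ℝ))
  exact h1.union h2

end Pool.Agent.H22.SY
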